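import Pool.Agent.Ortho.Asm
import Pool.Agent.Ortho.Cert.Root

set_option autoImplicit false

/-!
# Every gridded orthotree has an edge unfolding to a net (MP_2db2c2_co, Q1)

The net is a monotone sequence of vertical columns of rectangles. The proof is an induction over the branches of the tree with
a finite family of interface states for every class of branches (certificate found by computer, checked by the kernel).
-/

namespace Pool.Agent.Results.MP_2db2c2_co.OrthotreeNets

open Pool.Agent.Ortho

/-- every gridded orthotree has an edge unfolding to a net -/
theorem result : ∀ (n : ℕ) (P : Orthotree n), P.HasNet :=
  fun _ P => P.hasNet_of_cert Cert.cert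

end Pool.Agent.Results.MP_2db2c2_co.OrthotreeNets
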